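import Pool.Agent.Y320.ST.Stm

/-!
# Rotations of the sphere in the stereographic coordinate
-/

set_option autoImplicit false
open Filter Topology MeasureTheory Metric

namespace Pool.Agent.Y983.ST
open Pool.Agent.Y320.CM Pool.Agent.Y320.ST

/-- twice the inner product -/
noncomputable def ip (a p : Sph) : ℝ := 2 * (p.1 0 * a.1 0 + p.1 1 * a.1 1 + p.1 2 * a.1 2)

/-- the half-turn about `a` -/
noncomputable def ht (a p : Sph) : Sph :=
  ⟨!₂[ip a p * a.1 0 - p.1 0, ip a p * a.1 1 - p.1 1, ip a p * a.1 2 - p.1 2], by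
    rw [mem_sphere_zero_iff_norm, EuclideanSpace.norm_eq]
    simp only [Fin.sum_univ_three, Real.norm_eq_abs, sq_abs]
    simp only [Matrix.cons_val_zero, Matrix.cons_val_one, Matrix.cons_val]
    rw [Real.sqrt_eq_one]
    have h1 := sph_sq a
    have h2 := sph_sq p
    unfold ip
    linear_combination
      (4 * (p.1 0 * a.1 0 + p.1 1 * a.1 1 + p.1 2 * a.1 2) ^ 2) * h1 + h2⟩

lemma ht0 (a p : Sph) : (ht a p).1 0 = ip a p * a.1 0 - p.1 0 := rfl
lemma ht1 (a p : Sph) : (ht a p).1 1 = ip a p * a.1 1 - p.1 1 := rfl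
lemma ht2 (a p : Sph) : (ht a p).1 2 = ip a p * a.1 2 - p.1 2 := rfl

lemma sph_ext {p q : Sph} (h0 : p.1 0 = q.1 0) (h1 : p.1 1 = q.1 1) (h2 : p.1 2 = q.1 2) :
    p = q := by
  apply Subtype.ext
  ext i
  fin_cases i
  · exact h0
  · exact h1
  · exact h2

lemma ht_dist (a x y : Sph) : dist (ht a x) (ht a y) = dist x y := by
  have h : dist (ht a x) (ht a y) ^ 2 = dist x y ^ 2 := by
    rw [dist_sq, dist_sq, ht0, ht0, ht1, ht1, ht2, ht2]
    have h1 := sph_sq a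
    unfold ip
    linear_combination
      (4 * ((x.1 0 - y.1 0) * a.1 0 + (x.1 1 - y.1 1) * a.1 1 + (x.1 2 - y.1 2) * a.1 2) ^ 2) * h1
  exact (sq_eq_sq₀ dist_nonneg dist_nonneg).1 h

lemma ip_ht (a p : Sph) : ip a (ht a p) = ip a p := by
  have h1 := sph_sq a
  have h2 : ip a (ht a p) = 2 * ((ip a p * a.1 0 - p.1 0) * a.1 0 +
    (ip a p * a.1 1 - p.1 1) * a.1 1 + (ip a p * a.1 2 - p.1 2) * a.1 2) := rfl
  rw [h2]
  have h3 : ip a p = 2 * (p.1 0 * a.1 0 + p.1 1 * a.1 1 + p.1 2 * a.1 2) := rfl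
  linear_combination 2 * ip a p * h1 + h3

lemma ht_ht (a p : Sph) : ht a (ht a p) = p := by
  apply sph_ext
  · rw [ht0, ip_ht, ht0]; ring
  · rw [ht1, ip_ht, ht1]; ring
  · rw [ht2, ip_ht, ht2]; ring

lemma inf0 : inf.1 0 = 0 := rfl
lemma inf1 : inf.1 1 = 0 := rfl
lemma inf2 : inf.1 2 = -1 := rfl

lemma eq_inf {p : Sph} (h : p.1 2 = -1) : p = inf := by
  have h1 := sph_sq p
  rw [h] at h1
  have h0 : p.1 0 = 0 := by nlinarith [sq_nonneg (p.1 0), sq_nonneg (p.1 1)]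
  have h2 : p.1 1 = 0 := by nlinarith [sq_nonneg (p.1 0), sq_nonneg (p.1 1)]
  exact sph_ext (by rw [h0, inf0]) (by rw [h2, inf1]) (by rw [h, inf2])

lemma exists_axis (q : Sph) : ∃ a : Sph, ht a q = inf := by
  have hq := sph_sq q
  by_cases h : q.1 2 = 1
  · have h0 : q.1 0 = 0 := by nlinarith [sq_nonneg (q.1 0), sq_nonneg (q.1 1)]
    have h1 : q.1 1 = 0 := by nlinarith [sq_nonneg (q.1 0), sq_nonneg (q.1 1)]
    refine ⟨⟨!₂[1, 0, 0], ?_⟩, ?_⟩
    · rw [mem_sphere_zero_iff_norm, EuclideanSpace.norm_eq]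
      simp [Fin.sum_univ_three]
    · apply eq_inf
      rw [ht2, h]
      change ip _ q * 0 - 1 = -1
      ring
  · have h2 : q.1 2 < 1 := by
      refine lt_of_le_of_ne ?_ h
      nlinarith [sq_nonneg (q.1 0), sq_nonneg (q.1 1)]
    have hpos : 0 < 2 - 2 * q.1 2 := by linarith
    obtain ⟨r, hr⟩ : ∃ r, r = √(2 - 2 * q.1 2) := ⟨_, rfl⟩
    have hr0 : 0 < r := hr ▸ Real.sqrt_pos.2 hpos
    have hr2 : r ^ 2 = 2 - 2 * q.1 2 := hr ▸ Real.sq_sqrt hpos.le
    refine ⟨⟨!₂[q.1 0 / r, q.1 1 / r, (q.1 2 - 1) / r], ?_⟩, ?_⟩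
    · rw [mem_sphere_zero_iff_norm, EuclideanSpace.norm_eq]
      simp only [Fin.sum_univ_three, Real.norm_eq_abs, sq_abs]
      simp only [Matrix.cons_val_zero, Matrix.cons_val_one, Matrix.cons_val]
      rw [Real.sqrt_eq_one]
      field_simp
      linear_combination hq - hr2
    · apply eq_inf
      rw [ht2]
      change 2 * (q.1 0 * (q.1 0 / r) + q.1 1 * (q.1 1 / r) + q.1 2 * ((q.1 2 - 1) / r)) *
        ((q.1 2 - 1) / r) - q.1 2 = -1
      have e1 : 2 * (q.1 0 * (q.1 0 / r) + q.1 1 * (q.1 1 / r) + q.1 2 * ((q.1 2 - 1) / r)) *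
        ((q.1 2 - 1) / r) = 2 * (1 - q.1 2) * (q.1 2 - 1) / r ^ 2 := by
        field_simp
        linear_combination hq
      rw [e1, hr2]
      field_simp
      ring

/-- the rotation -/
noncomputable def rot (a : Sph) : Sph ≃ₜ Sph where
  toFun := ht a
  invFun := ht a
  left_inv := ht_ht a
  right_inv := ht_ht a
  continuous_toFun := (Isometry.of_dist_eq (ht_dist a)).continuous
  continuous_invFun := (Isometry.of_dist_eq (ht_dist a)).continuous

/-- the complex coordinate of the axis -/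
noncomputable def ax (a : Sph) : ℂ := ⟨a.1 0, a.1 1⟩

/-- the denominator -/
noncomputable def dn (a : Sph) (w : ℂ) : ℂ := (a.1 2 : ℂ) + (starRingEnd ℂ) (ax a) * w

/-- the numerator -/
noncomputable def nu (a : Sph) (w : ℂ) : ℂ := ax a - (a.1 2 : ℂ) * w

lemma dn_re (a : Sph) (w : ℂ) : (dn a w).re = a.1 2 + a.1 0 * w.re + a.1 1 * w.im := by
  simp [dn, ax]
  ring

lemma dn_im (a : Sph) (w : ℂ) : (dn a w).im = a.1 0 * w.im - a.1 1 * w.re := by
  simp [dn, ax]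
  ring

lemma nu_re (a : Sph) (w : ℂ) : (nu a w).re = a.1 0 - a.1 2 * w.re := by
  simp [nu, ax]

lemma nu_im (a : Sph) (w : ℂ) : (nu a w).im = a.1 1 - a.1 2 * w.im := by
  simp [nu, ax]

lemma norm2 (w : ℂ) : ‖w‖ ^ 2 = w.re ^ 2 + w.im ^ 2 := by
  rw [← Complex.normSq_eq_norm_sq, Complex.normSq_apply]; ring

lemma sg0 (w : ℂ) : (sg w).1 0 = 2 * w.re / (1 + ‖w‖ ^ 2) := rfl
lemma sg1 (w : ℂ) : (sg w).1 1 = 2 * w.im / (1 + ‖w‖ ^ 2) := rfl
lemma sg2 (w : ℂ) : (sg w).1 2 = (1 - ‖w‖ ^ 2) / (1 + ‖w‖ ^ 2) := rfl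

lemma ip_sg (a : Sph) (w : ℂ) : ip a (sg w) =
    2 * (2 * w.re * a.1 0 + 2 * w.im * a.1 1 + (1 - ‖w‖ ^ 2) * a.1 2) / (1 + ‖w‖ ^ 2) := by
  unfold ip
  rw [sg0, sg1, sg2]
  have h : 0 < 1 + ‖w‖ ^ 2 := by positivity
  field_simp

lemma third (a : Sph) (w : ℂ) :
    1 + (ht a (sg w)).1 2 = 2 * Complex.normSq (dn a w) / (1 + ‖w‖ ^ 2) := by
  rw [ht2, ip_sg, sg2, Complex.normSq_apply, dn_re, dn_im]
  have h : 0 < 1 + ‖w‖ ^ 2 := by positivity
  have h1 := sph_sq a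
  have h2 := norm2 w
  field_simp
  rw [h2]
  linear_combination (-2 * (w.re ^ 2 + w.im ^ 2)) * h1

lemma dn_ne {a : Sph} {w : ℂ} (h : ht a (sg w) ≠ inf) : dn a w ≠ 0 := by
  intro h0
  apply h
  apply eq_inf
  have h1 := third a w
  rw [h0, map_zero, mul_zero, zero_div] at h1
  linarith

lemma pl_ht {a : Sph} {w : ℂ} (h : dn a w ≠ 0) : pl (ht a) w = nu a w / dn a w := by
  have hD : 0 < Complex.normSq (dn a w) := Complex.normSq_pos.2 h
  have h0 : 0 < 1 + ‖w‖ ^ 2 := by positivity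
  have h1 := sph_sq a
  have h2 := norm2 w
  have h3 := third a w
  have hDe : Complex.normSq (dn a w) = (a.1 2 + a.1 0 * w.re + a.1 1 * w.im) ^ 2 +
      (a.1 0 * w.im - a.1 1 * w.re) ^ 2 := by
    rw [Complex.normSq_apply, dn_re, dn_im]; ring
  apply Complex.ext
  · rw [Complex.div_re, nu_re, nu_im, dn_re, dn_im]
    change (ht a (sg w)).1 0 / (1 + (ht a (sg w)).1 2) = _
    rw [h3, ht0, ip_sg, sg0]
    field_simp
    rw [h2]
    linear_combination w.re * h1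
  · rw [Complex.div_im, nu_re, nu_im, dn_re, dn_im]
    change (ht a (sg w)).1 1 / (1 + (ht a (sg w)).1 2) = _
    rw [h3, ht1, ip_sg, sg1]
    field_simp
    rw [h2]
    linear_combination w.im * h1

lemma ax_sq (a : Sph) : (a.1 2 : ℂ) ^ 2 + ax a * (starRingEnd ℂ) (ax a) = 1 := by
  have h1 := sph_sq a
  rw [Complex.mul_conj, Complex.normSq_apply]
  have h2 : (ax a).re = a.1 0 := rfl
  have h3 : (ax a).im = a.1 1 := rfl
  rw [h2, h3]
  have h4 : a.1 2 ^ 2 + (a.1 0 * a.1 0 + a.1 1 * a.1 1) = 1 := by linarith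
  have h5 := congrArg (fun r : ℝ => (r : ℂ)) h4
  push_cast at h5 ⊢
  exact h5

lemma hasDeriv {a : Sph} {w : ℂ} (h : dn a w ≠ 0) :
    HasDerivAt (pl (ht a)) (-1 / dn a w ^ 2) w := by
  have h1 : HasDerivAt (dn a) ((starRingEnd ℂ) (ax a)) w := by
    have h := ((hasDerivAt_id w).const_mul ((starRingEnd ℂ) (ax a))).const_add (a.1 2 : ℂ)
    rw [mul_one] at h
    exact h
  have h2 : HasDerivAt (nu a) (-(a.1 2 : ℂ)) w := by
    have h := ((hasDerivAt_id w).const_mul (a.1 2 : ℂ)).const_sub (ax a)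
    rw [mul_one] at h
    exact h
  have h3 := h2.div h1 h
  have h4 : (-(a.1 2 : ℂ) * dn a w - nu a w * (starRingEnd ℂ) (ax a)) / dn a w ^ 2 =
      -1 / dn a w ^ 2 := by
    congr 1
    unfold dn nu
    linear_combination (-1 : ℂ) * ax_sq a
  rw [h4] at h3
  refine h3.congr_of_eventuallyEq ?_
  have h5 : ∀ᶠ z in 𝓝 w, dn a z ≠ 0 := h1.continuousAt.eventually_ne h
  filter_upwards [h5] with z hz
  exact pl_ht hz

lemma deriv_ex {a : Sph} {w : ℂ} (h : ht a (sg w) ≠ inf) :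
    ∃ k : ℂ, k ≠ 0 ∧ HasDerivAt (pl (ht a)) k w :=
  ⟨-1 / dn a w ^ 2, div_ne_zero (by norm_num) (pow_ne_zero _ (dn_ne h)), hasDeriv (dn_ne h)⟩

/-- Distances in the planar coordinate. -/
lemma dist_pl (hS : S_STB) {B : Sph → Sph} (hB : ∀ x y, dist (B x) (B y) = dist x y) {C : ℝ}
    {w w' : ℂ} (h : B (sg w) ≠ inf) (h' : B (sg w') ≠ inf)
    (hC : ‖pl B w‖ ≤ C) (hC' : ‖pl B w'‖ ≤ C) :
    dist (pl B w) (pl B w') ≤ dist (sg w) (sg w') * (1 + C ^ 2) / 2 := by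
  obtain ⟨s1, s2, s3, s4, s5, s6, -⟩ := hS
  have e1 : dist (sg (pl B w)) (sg (pl B w')) = dist (sg w) (sg w') := by
    unfold pl
    rw [s2 _ h, s2 _ h', hB]
  rw [s6] at e1
  have h0 : 0 ≤ ‖pl B w‖ := norm_nonneg _
  have h0' : 0 ≤ ‖pl B w'‖ := norm_nonneg _
  have hp : 0 < √((1 + ‖pl B w‖ ^ 2) * (1 + ‖pl B w'‖ ^ 2)) := Real.sqrt_pos.2 (by positivity)
  have hle : √((1 + ‖pl B w‖ ^ 2) * (1 + ‖pl B w'‖ ^ 2)) ≤ 1 + C ^ 2 := by
    rw [Real.sqrt_le_left (by positivity)]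
    calc (1 + ‖pl B w‖ ^ 2) * (1 + ‖pl B w'‖ ^ 2) ≤ (1 + C ^ 2) * (1 + C ^ 2) := by gcongr
      _ = (1 + C ^ 2) ^ 2 := by ring
  rw [div_eq_iff hp.ne'] at e1
  have h1 : dist (pl B w) (pl B w') = dist (sg w) (sg w') *
      √((1 + ‖pl B w‖ ^ 2) * (1 + ‖pl B w'‖ ^ 2)) / 2 := by linarith
  rw [h1]
  have : 0 ≤ dist (sg w) (sg w') := dist_nonneg
  gcongr

lemma dist_sg_le (hS : S_STB) (w w' : ℂ) : dist (sg w) (sg w') ≤ 2 * dist w w' := by
  obtain ⟨s1, s2, s3, s4, s5, s6, -⟩ := hS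
  rw [s6]
  have h1 : 1 ≤ √((1 + ‖w‖ ^ 2) * (1 + ‖w'‖ ^ 2)) := by
    rw [Real.one_le_sqrt]
    nlinarith [sq_nonneg ‖w‖, sq_nonneg ‖w'‖, mul_nonneg (sq_nonneg ‖w‖) (sq_nonneg ‖w'‖)]
  exact div_le_self (by positivity) h1

/-- Lipschitz maps of the plane. -/
lemma vol_lip {f : ℂ → ℂ} {K : NNReal} {s : Set ℂ} (h : LipschitzOnWith K f s) :
    volume (f '' s) ≤ (K : ENNReal) ^ 2 * volume s := by
  have h1 := h.hausdorffMeasure_image_le (d := 2) (by norm_num)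
  have hH : (Measure.hausdorffMeasure (Module.finrank ℝ ℂ : ℝ) : Measure ℂ).IsAddHaarMeasure :=
    inferInstance
  rw [Complex.finrank_real_complex] at hH
  have hH' : (Measure.hausdorffMeasure 2 : Measure ℂ).IsAddHaarMeasure := by
    simpa using hH
  obtain ⟨c, hc⟩ : ∃ c : ENNReal, c ≠ 0 ∧ c ≠ ⊤ ∧
      (Measure.hausdorffMeasure 2 : Measure ℂ) = c • volume := by
    have h2 := Measure.isAddLeftInvariant_eq_smul (Measure.hausdorffMeasure 2 : Measure ℂ)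
      (volume : Measure ℂ)
    refine ⟨_, ?_, ENNReal.coe_ne_top, h2⟩
    intro h0
    have h3 : (Measure.hausdorffMeasure 2 : Measure ℂ) = 0 := by
      rw [h2]
      have h0' : Measure.addHaarScalarFactor (Measure.hausdorffMeasure 2 : Measure ℂ)
        (volume : Measure ℂ) = 0 := by exact_mod_cast h0
      rw [h0', zero_smul]
    have h4 := (hH'.toIsOpenPosMeasure).open_pos Set.univ isOpen_univ Set.univ_nonempty
    rw [h3] at h4
    exact h4 rfl
  obtain ⟨hc0, hct, hc⟩ := hc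
  rw [hc, Measure.smul_apply, Measure.smul_apply, smul_eq_mul, smul_eq_mul] at h1
  have h5 : ((K : ENNReal) ^ (2 : ℝ)) = (K : ENNReal) ^ 2 := by
    exact_mod_cast ENNReal.rpow_natCast (K : ENNReal) 2
  rw [h5, mul_left_comm] at h1
  exact (ENNReal.mul_le_mul_iff_right hc0 hct).1 h1

/-- **Rotations.** -/
theorem s_rot (hS : S_STB) : S_ROT := by
  intro q
  obtain ⟨a, ha⟩ := exists_axis q
  have hd : ∀ x y, dist (ht a x) (ht a y) = dist x y := ht_dist a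
  refine ⟨rot a, hd, ha, fun w h => deriv_ex h, fun w h => deriv_ex h, ?_⟩
  intro E C hC
  change volume (pl (ht a) '' E ∩ closedBall 0 C) ≤ _
  set F : Set ℂ := {w | w ∈ E ∧ ht a (sg w) ≠ inf ∧ ‖pl (ht a) w‖ ≤ C} with hF
  have hK : 0 ≤ 1 + C ^ 2 := by positivity
  obtain ⟨K, hKd⟩ : ∃ K : NNReal, K = ⟨1 + C ^ 2, hK⟩ := ⟨_, rfl⟩
  have hKc : (K : ℝ) = 1 + C ^ 2 := by rw [hKd]; rfl
  have hKe : (K : ENNReal) = ENNReal.ofReal (1 + C ^ 2) := by
    rw [← hKc, ENNReal.ofReal_coe_nnreal]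
  have hL : LipschitzOnWith K (pl (ht a)) F := by
    refine LipschitzOnWith.of_dist_le_mul fun w hw w' hw' => ?_
    have h1 := dist_pl hS hd hw.2.1 hw'.2.1 hw.2.2 hw'.2.2
    have h2 := dist_sg_le hS w w'
    refine h1.trans ?_
    rw [hKc]
    nlinarith
  have h1 : pl (ht a) '' E ∩ closedBall 0 C ⊆ {0} ∪ pl (ht a) '' F := by
    rintro _ ⟨⟨w, hw, rfl⟩, hb⟩
    rw [mem_closedBall_zero_iff] at hb
    by_cases h : ht a (sg w) = inf
    · left
      change st (ht a (sg w)) = 0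
      rw [h]
      unfold st
      rw [inf0, inf1]
      simp
      rfl
    · right
      exact ⟨w, ⟨hw, h, hb⟩, rfl⟩
  calc volume (pl (ht a) '' E ∩ closedBall 0 C) ≤ volume ({0} ∪ pl (ht a) '' F) :=
        measure_mono h1
    _ ≤ volume ({0} : Set ℂ) + volume (pl (ht a) '' F) := measure_union_le _ _
    _ = volume (pl (ht a) '' F) := by rw [measure_singleton, zero_add]
    _ ≤ (K : ENNReal) ^ 2 * volume F := vol_lip hL
    _ ≤ ENNReal.ofReal ((1 + C ^ 2) ^ 2) * volume E := by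
      rw [hKe, ← ENNReal.ofReal_pow hK]
      gcongr
      exact fun w hw => hw.1

/-- **A neighbourhood of infinity.** -/
theorem s_rotr (hS : S_STB) : S_ROTR := by
  intro C ε hε
  have hpi := Real.pi_pos
  obtain ⟨R, hR⟩ : ∃ R : ℝ, R = 1 + 4 * Real.pi * (1 + C ^ 2) ^ 2 / ε := ⟨_, rfl⟩
  have hR1 : 1 ≤ R := by
    rw [hR]
    have : 0 ≤ 4 * Real.pi * (1 + C ^ 2) ^ 2 / ε := by positivity
    linarith
  refine ⟨R, by linarith, fun B hB => ?_⟩
  obtain ⟨s1, s2, s3, s4, s5, s6, s7, -⟩ := id hS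
  set d : ℝ := 2 * (1 + C ^ 2) / √(1 + R ^ 2) with hd
  have hsq : 0 < √(1 + R ^ 2) := Real.sqrt_pos.2 (by positivity)
  have hd0 : 0 ≤ d := by positivity
  have hd2 : Real.pi * d ^ 2 ≤ ε := by
    rw [hd, div_pow, Real.sq_sqrt (by positivity), mul_div_assoc', div_le_iff₀ (by positivity)]
    have h1 : ε * R = ε + 4 * Real.pi * (1 + C ^ 2) ^ 2 := by
      rw [hR]
      field_simp
    have h2 : ε * R ≤ ε * R ^ 2 := mul_le_mul_of_nonneg_left (by nlinarith) hε.le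
    have h3 : Real.pi * (2 * (1 + C ^ 2)) ^ 2 = 4 * Real.pi * (1 + C ^ 2) ^ 2 := by ring
    rw [h3]
    linarith
  set F : Set ℂ := {u | ∃ w : ℂ, R ≤ ‖w‖ ∧ B (sg w) ≠ inf ∧ ‖pl B w‖ ≤ C ∧ u = pl B w} with hF
  have h1 : pl B '' {w | R ≤ ‖w‖} ∩ closedBall 0 C ⊆ {0} ∪ F := by
    rintro _ ⟨⟨w, hw, rfl⟩, hb⟩
    rw [mem_closedBall_zero_iff] at hb
    by_cases h : B (sg w) = inf
    · left
      change st (B (sg w)) = 0
      rw [h]
      unfold st
      rw [inf0, inf1]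
      simp
      rfl
    · right
      exact ⟨w, hw, h, hb, rfl⟩
  have hfar : ∀ w : ℂ, R ≤ ‖w‖ → dist (sg w) inf ≤ 2 / √(1 + R ^ 2) := by
    intro w hw
    rw [s7]
    gcongr
  have h2 : volume F ≤ ENNReal.ofReal ε := by
    by_cases hne : F.Nonempty
    · obtain ⟨u0, w0, hw0, hi0, hC0, rfl⟩ := hne
      have h3 : F ⊆ closedBall (pl B w0) d := by
        rintro _ ⟨w, hw, hi, hCw, rfl⟩
        rw [mem_closedBall]
        refine (dist_pl hS hB hi hi0 hCw hC0).trans ?_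
        have h4 : dist (sg w) (sg w0) ≤ 4 / √(1 + R ^ 2) := by
          have h5 := dist_triangle (sg w) inf (sg w0)
          have h6 := hfar w hw
          have h7 := hfar w0 hw0
          rw [dist_comm inf] at h5
          have h8 : 4 / √(1 + R ^ 2) = 2 / √(1 + R ^ 2) + 2 / √(1 + R ^ 2) := by ring
          linarith
        have hCn : 0 ≤ 1 + C ^ 2 := by positivity
        calc dist (sg w) (sg w0) * (1 + C ^ 2) / 2 ≤ 4 / √(1 + R ^ 2) * (1 + C ^ 2) / 2 := by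
              gcongr
          _ = d := by rw [hd]; ring
      calc volume F ≤ volume (closedBall (pl B w0) d) := measure_mono h3
        _ = ENNReal.ofReal d ^ 2 * NNReal.pi := Complex.volume_closedBall _ _
        _ = ENNReal.ofReal (Real.pi * d ^ 2) := by
          rw [ENNReal.ofReal_mul hpi.le, ENNReal.ofReal_pow hd0, mul_comm]
          congr 1
          rw [← NNReal.coe_real_pi, ENNReal.ofReal_coe_nnreal]
        _ ≤ ENNReal.ofReal ε := ENNReal.ofReal_le_ofReal hd2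
    · rw [Set.not_nonempty_iff_eq_empty.1 hne, measure_empty]
      exact zero_le
  calc volume (pl B '' {w | R ≤ ‖w‖} ∩ closedBall 0 C) ≤ volume ({0} ∪ F) := measure_mono h1
    _ ≤ volume ({0} : Set ℂ) + volume F := measure_union_le _ _
    _ = volume F := by rw [measure_singleton, zero_add]
    _ ≤ ENNReal.ofReal ε := h2

end Pool.Agent.Y983.ST

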